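import Pool.Agent.N550.OC.Stm
import Pool.Agent.Helper514.IoD

set_option autoImplicit false

open Set Filter Topology Metric Function
open scoped ContDiff

noncomputable section

namespace Pool.Agent.N658.OC

open Pool.Agent.Y522 Pool.Agent.N550.OC

variable {k : ℕ}

theorem imOpen (f : E k → E k) (r : ℝ) (hc : ContinuousOn f (ball 0 r))
    (hi : InjOn f (ball 0 r)) : IsOpen (f '' ball 0 r) := by
  rw [isOpen_iff_mem_nhds]
  rintro _ ⟨y, hy, rfl⟩
  rw [mem_ball_zero_iff] at hy
  have hsub : closedBall y ((r - ‖y‖)/2) ⊆ ball 0 r := by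
    intro x hx
    rw [mem_closedBall, dist_eq_norm] at hx
    rw [mem_ball_zero_iff]
    have := norm_add_le (x - y) y
    rw [sub_add_cancel] at this
    linarith
  exact mem_of_superset (Pool.Agent.Helper514.IoD.image_mem_nhds f y _ (by linarith) (hc.mono hsub) (hi.mono hsub))
    (image_mono hsub)

theorem half (f h : E k → E k) (r : ℝ) (hfc : ContinuousOn f (ball 0 r))
    (hc : ContinuousOn h (closedBall 0 r)) (hi : InjOn h (closedBall 0 r))
    (hS : ∀ y ∈ ball (0 : E k) r, f y ∉ h '' sphere 0 r)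
    (hn : (f '' ball 0 r ∩ h '' ball 0 r).Nonempty) : f '' ball 0 r ⊆ h '' ball 0 r := by
  have h1 : IsPreconnected (f '' ball 0 r) := isPreconnected_ball.image f hfc
  refine h1.subset_of_closure_inter_subset (imOpen h r (hc.mono ball_subset_closedBall)
    (hi.mono ball_subset_closedBall)) hn ?_
  rintro z ⟨hz1, y, hy, rfl⟩
  have h2 : f y ∈ h '' closedBall 0 r := by
    have : IsClosed (h '' closedBall 0 r) :=
      ((isCompact_closedBall 0 r).image_of_continuousOn hc).isClosed
    exact closure_minimal (image_mono ball_subset_closedBall) this hz1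
  obtain ⟨x, hx, hxy⟩ := h2
  rw [mem_closedBall_zero_iff] at hx
  rcases hx.lt_or_eq with h3 | h3
  · exact ⟨x, by simpa using h3, hxy⟩
  · exact absurd ⟨x, by simpa using h3, hxy⟩ (hS y hy)

theorem exNorm (hk : 2 ≤ k) (a : ℝ) (ha : 0 ≤ a) : ∃ y : E k, ‖y‖ = a := by
  have : Nonempty (Fin k) := ⟨⟨0, by omega⟩⟩
  refine ⟨EuclideanSpace.single ⟨0, by omega⟩ a, ?_⟩
  rw [PiLp.norm_single, Real.norm_eq_abs, abs_of_nonneg ha]

theorem keyGen (hk : 2 ≤ k) (f h : E k → E k) (r r' : ℝ) (hr' : 0 < r') (hr : r' < r)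
    (hfc : ContinuousOn f (closedBall 0 r)) (hfi : InjOn f (closedBall 0 r))
    (hc : ContinuousOn h (closedBall 0 r)) (hi : InjOn h (closedBall 0 r))
    (he : ∀ y : E k, r' ≤ ‖y‖ → ‖y‖ ≤ r → f y = h y) : f '' ball 0 r = h '' ball 0 r := by
  obtain ⟨y0, hy0⟩ := exNorm hk ((r + r')/2) (by linarith)
  have hb0 : y0 ∈ ball (0 : E k) r := by rw [mem_ball_zero_iff]; linarith
  have heq0 : f y0 = h y0 := he y0 (by linarith) (by linarith)
  have main : ∀ f h : E k → E k, ContinuousOn f (closedBall 0 r) → InjOn f (closedBall 0 r) →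
      ContinuousOn h (closedBall 0 r) → InjOn h (closedBall 0 r) →
      (∀ y : E k, r' ≤ ‖y‖ → ‖y‖ ≤ r → f y = h y) → f '' ball 0 r ⊆ h '' ball 0 r := by
    intro f h hfc hfi hc hi he
    refine half f h r (hfc.mono ball_subset_closedBall) hc hi ?_ ?_
    · rintro y hy ⟨x, hx, hxy⟩
      rw [mem_sphere_zero_iff_norm] at hx
      rw [← he x (by linarith) (by linarith)] at hxy
      have h1 := hfi (by rw [mem_closedBall_zero_iff]; linarith) (ball_subset_closedBall hy) hxy
      rw [mem_ball_zero_iff, ← h1] at hy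
      linarith
    · exact ⟨f y0, ⟨y0, hb0, rfl⟩, ⟨y0, hb0, (he y0 (by linarith) (by linarith)).symm⟩⟩
  exact Subset.antisymm (main f h hfc hfi hc hi he)
    (main h f hc hi hfc hfi (fun y h1 h2 => (he y h1 h2).symm))

/-- The key lemma of P1B. -/
theorem key (g F : ℝ → E k → E k) (ε ρ τ r r' : ℝ) (hk : 2 ≤ k) (hg : Fam k g ε)
    (hF : Res k g F ε ρ τ r r') : ∀ s, |s| < 2 * τ → F s '' ball 0 r = g s '' ball 0 r := by
  intro s hs
  obtain ⟨hε, hgc, hgd, hgi⟩ := hg
  obtain ⟨h1, h2, h3, h4, h5, h6, h7, h8, h9, h10, h11, h12⟩ := hF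
  refine keyGen hk (F s) (g s) r r' h4 h5 ?_ (h9 s hs) ?_ ((hgi s (by linarith)).mono ?_) ?_
  · intro y hy
    rw [mem_closedBall_zero_iff] at hy
    have := (h7 s y hs (by linarith)).continuousAt
    exact (ContinuousAt.comp (f := fun y : E k => (s, y)) (x := y) this (by fun_prop)).continuousWithinAt
  · intro y hy
    rw [mem_closedBall_zero_iff] at hy
    have := hgc s y (by linarith) (by linarith)
    exact (ContinuousAt.comp (f := fun y : E k => (s, y)) (x := y) this (by fun_prop)).continuousWithinAt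
  · intro y hy
    rw [mem_closedBall_zero_iff] at hy
    rw [mem_ball_zero_iff]; linarith
  · intro y hy1 hy2
    exact h10 s y hs hy1 (by linarith)

end Pool.Agent.N658.OC
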